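import Mathlib
import Pool.Agent.R284.RC.Stm

/-!
Project RC (MP_ce24da_an), piece LOC4.
-/

set_option autoImplicit false
open MeasureTheory Set Filter Topology
open scoped ENNReal NNReal

namespace Pool.Agent.R771.RC

open Pool.Agent.R284.RC

/-- the radial kernel -/
noncomputable def kf (p d : ℝ) : ℝ := if p = 0 then -Real.log d else d ^ (-p)

theorem kr_eq {n : ℕ} (p : ℝ) (x y : E n) : kr p x y = kf p (dist x y) := rfl

theorem kf_le {p s t : ℝ} (hp : 0 ≤ p) (hps : p ≤ s) (hs : 0 < s) (ht : 0 < t) (ht1 : t ≤ 1) :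
    kf p t ≤ (1 + 1 / s) * t ^ (-s) := by
  have h0 : 0 < t ^ (-s) := Real.rpow_pos_of_pos ht _
  have h1 : 0 < 1 / s := by positivity
  unfold kf
  split_ifs with h
  · have h2 : Real.log (1 / t) ≤ (1 / t) ^ s / s := Real.log_le_rpow_div (by positivity) hs
    have h3 : Real.log (1 / t) = -Real.log t := by rw [one_div, Real.log_inv]
    have h4 : (1 / t) ^ s = t ^ (-s) := by
      rw [one_div, Real.inv_rpow ht.le, Real.rpow_neg ht.le]
    rw [h3, h4] at h2
    have h5 : t ^ (-s) / s = 1 / s * t ^ (-s) := by ring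
    nlinarith
  · have h2 : t ^ (-p) ≤ t ^ (-s) :=
      Real.rpow_le_rpow_of_exponent_ge ht ht1 (by linarith)
    nlinarith

theorem kf_anti {p a b : ℝ} (hp : 0 ≤ p) (ha : 0 < a) (hab : a ≤ b) : kf p b ≤ kf p a := by
  unfold kf
  split_ifs with h
  · have := Real.log_le_log ha hab
    linarith
  · exact Real.rpow_le_rpow_of_nonpos ha hab (by linarith)

theorem kf_nonneg {p t : ℝ} (ht : 0 ≤ t) (ht1 : t ≤ 1) : 0 ≤ kf p t := by
  unfold kf
  split_ifs with h
  · have := Real.log_nonpos ht ht1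
    linarith
  · exact Real.rpow_nonneg ht _

/-- stability of the kernel far away -/
theorem kf_far {p ρ ε : ℝ} (hp : 0 ≤ p) (hρ : 0 < ρ) (hε : 0 < ε) :
    ∃ δ > (0 : ℝ), δ ≤ ρ ∧ ∀ r ∈ Ioo (0 : ℝ) δ, ∀ d, ρ ≤ d → kf p (d - r) ≤ kf p d + ε := by
  have hcont : Tendsto (fun u : ℝ => if p = 0 then -Real.log u else ρ ^ (-p) * (u ^ (-p) - 1))
      (𝓝 1) (𝓝 0) := by
    split_ifs with h
    · have h1 : ContinuousAt (fun u : ℝ => -Real.log u) 1 :=
        (Real.continuousAt_log one_ne_zero).neg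
      have h2 := h1.tendsto
      simpa using h2
    · have h1 : ContinuousAt (fun u : ℝ => ρ ^ (-p) * (u ^ (-p) - 1)) 1 :=
        continuousAt_const.mul ((Real.continuousAt_rpow_const _ _ (Or.inl one_ne_zero)).sub
          continuousAt_const)
      have h2 := h1.tendsto
      simpa using h2
  have hev := hcont.eventually (gt_mem_nhds hε)
  have hsub : Tendsto (fun r : ℝ => 1 - r / ρ) (𝓝 0) (𝓝 1) := by
    have h1 : ContinuousAt (fun r : ℝ => 1 - r / ρ) 0 := by fun_prop
    have h2 := h1.tendsto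
    simpa using h2
  have hev2 := hsub.eventually hev
  obtain ⟨δ0, hδ0, hball⟩ := Metric.eventually_nhds_iff.mp hev2
  refine ⟨min δ0 ρ, lt_min hδ0 hρ, min_le_right _ _, ?_⟩
  intro r hr d hd
  have hr1 : r < δ0 := lt_of_lt_of_le hr.2 (min_le_left _ _)
  have hr2 : r < ρ := lt_of_lt_of_le hr.2 (min_le_right _ _)
  have hr0 : 0 < r := hr.1
  have hu := hball (y := r) (by rw [Real.dist_eq, sub_zero, abs_of_pos hr0]; exact hr1)
  set u := 1 - r / ρ with hudef
  have hu0 : 0 < u := by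
    rw [hudef, sub_pos, div_lt_one hρ]
    exact hr2
  have hd0 : 0 < d := lt_of_lt_of_le hρ hd
  have hdu : d * u ≤ d - r := by
    have : d * (r / ρ) ≥ r := by
      rw [mul_div_assoc']
      rw [ge_iff_le, le_div_iff₀ hρ]
      nlinarith
    rw [hudef]
    nlinarith
  refine (kf_anti hp (mul_pos hd0 hu0) hdu).trans ?_
  unfold kf
  split_ifs with h
  · rw [if_pos h] at hu
    rw [Real.log_mul hd0.ne' hu0.ne']
    linarith
  · rw [if_neg h] at hu
    rw [Real.mul_rpow hd0.le hu0.le]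
    have hppos : 0 < p := lt_of_le_of_ne hp (Ne.symm h)
    have h1 : d ^ (-p) ≤ ρ ^ (-p) := Real.rpow_le_rpow_of_nonpos hρ hd (by linarith)
    have h2 : 1 ≤ u ^ (-p) := by
      apply Real.one_le_rpow_of_pos_of_le_one_of_nonpos hu0
      · rw [hudef]
        have : 0 ≤ r / ρ := by positivity
        linarith
      · linarith
    nlinarith

/-- dyadic decomposition -/
theorem dyad {s ρ r : ℝ} (hs : 0 < s) (hr : 0 < r) (hρ : 0 < ρ) :
    ∃ K : ℕ, (∀ k < K, r < ρ * (1 / 2) ^ k) ∧ ∀ d, r ≤ d → d < ρ →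
      d ^ (-s) ≤ ∑ k ∈ Finset.range K, (if d < ρ * (1 / 2) ^ k then
        2 ^ s * (ρ * (1 / 2) ^ k) ^ (-s) else 0) := by
  classical
  have hex : ∃ K : ℕ, ρ * (1 / 2) ^ K ≤ r := by
    obtain ⟨K, hK⟩ := exists_pow_lt_of_lt_one (show 0 < r / ρ by positivity)
      (show (1 / 2 : ℝ) < 1 by norm_num)
    refine ⟨K, ?_⟩
    rw [lt_div_iff₀ hρ] at hK
    nlinarith
  refine ⟨Nat.find hex, fun k hk => not_le.mp (Nat.find_min hex hk), ?_⟩
  intro d hrd hdρ
  have hd0 : 0 < d := lt_of_lt_of_le hr hrd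
  have hexd : ∃ j : ℕ, ρ * (1 / 2) ^ j ≤ d := ⟨_, (Nat.find_spec hex).trans hrd⟩
  set j := Nat.find hexd with hj
  have hjs : ρ * (1 / 2) ^ j ≤ d := Nat.find_spec hexd
  have hj0 : j ≠ 0 := by
    intro h0
    rw [h0] at hjs
    simp at hjs
    linarith
  obtain ⟨k, hk⟩ := Nat.exists_eq_succ_of_ne_zero hj0
  have hkd : d < ρ * (1 / 2) ^ k := not_le.mp (Nat.find_min hexd (by omega))
  have hkK : k < Nat.find hex := by
    have : j ≤ Nat.find hex := Nat.find_min' hexd ((Nat.find_spec hex).trans hrd)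
    omega
  have hterm : d ^ (-s) ≤ 2 ^ s * (ρ * (1 / 2) ^ k) ^ (-s) := by
    have h1 : d ^ (-s) ≤ (ρ * (1 / 2) ^ j) ^ (-s) :=
      Real.rpow_le_rpow_of_nonpos (by positivity) hjs (by linarith)
    refine h1.trans (le_of_eq ?_)
    have h2 : ρ * (1 / 2 : ℝ) ^ j = (1 / 2) * (ρ * (1 / 2) ^ k) := by
      rw [hk, pow_succ]; ring
    rw [h2, Real.mul_rpow (by norm_num) (by positivity)]
    congr 1
    rw [one_div, Real.inv_rpow (by norm_num), ← Real.rpow_neg (by norm_num), neg_neg]
  refine hterm.trans ?_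
  have h3 := Finset.single_le_sum (f := fun k => if d < ρ * (1 / 2 : ℝ) ^ k then
        (2 : ℝ) ^ s * (ρ * (1 / 2) ^ k) ^ (-s) else 0) (s := Finset.range (Nat.find hex))
      (fun i _ => by
        split_ifs
        · positivity
        · exact le_rfl) (Finset.mem_range.mpr hkK)
  simp only [if_pos hkd] at h3
  exact h3

theorem loc4_proof (hint : S_int) (hcls : S_cls) : S_loc4 := by
  intro n p q μ ν V C1 C2 γ hctx x0 η0 κ hη0 hκ hL1 hL3 C hC
  obtain ⟨hp0, hpq, hqn, hμP, hBPμ, hBSμ, hV0, hLow, hOpt, hνP, hBSν, hFν, hEν, hlow⟩ := hctx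
  have hq0 : 0 < q := lt_of_le_of_lt hp0 hpq
  obtain ⟨C', hC', r3, hr3, h3⟩ := hL3 C hC
  obtain ⟨r1, hr1, h1⟩ := hL1 (C * 2 ^ q) (by positivity)
  set s : ℝ := (p + q) / 2 with hs
  have hps : p ≤ s := by rw [hs]; linarith
  have hs0 : 0 < s := by rw [hs]; linarith
  have hsq : s < q := by rw [hs]; linarith
  have hqs : 0 < q - s := by linarith
  set x : ℝ := (1 / 2 : ℝ) ^ (q - s) with hx
  have hx0 : 0 < x := by rw [hx]; positivity
  have hx1 : x < 1 := by
    rw [hx]
    exact Real.rpow_lt_one (by norm_num) (by norm_num) hqs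
  set K0 : ℝ := (1 + 1 / s) * 4 ^ s * (2 ^ s * C' * (1 - x)⁻¹) with hK0
  have h1x : 0 < (1 - x)⁻¹ := inv_pos.mpr (by linarith)
  have hK0pos : 0 < K0 := by rw [hK0]; positivity
  set ρ : ℝ := min (min (1 / 2) (r3 / 2)) ((η0 / (2 * K0)) ^ (1 / (q - s))) with hρ
  have hρ0 : 0 < ρ := by
    rw [hρ]
    refine lt_min (lt_min (by norm_num) (by linarith)) (by positivity)
  have hρ1 : ρ ≤ 1 / 2 := (min_le_left _ _).trans (min_le_left _ _)
  have hρ3 : ρ ≤ r3 / 2 := (min_le_left _ _).trans (min_le_right _ _)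
  have hρK : K0 * ρ ^ (q - s) ≤ η0 / 2 := by
    have h4 : ρ ^ (q - s) ≤ ((η0 / (2 * K0)) ^ (1 / (q - s))) ^ (q - s) :=
      Real.rpow_le_rpow hρ0.le (min_le_right _ _) hqs.le
    rw [← Real.rpow_mul (by positivity), one_div_mul_cancel hqs.ne', Real.rpow_one] at h4
    calc K0 * ρ ^ (q - s) ≤ K0 * (η0 / (2 * K0)) := mul_le_mul_of_nonneg_left h4 hK0pos.le
      _ = η0 / 2 := by field_simp
  obtain ⟨δ, hδ, hδρ, hfar⟩ := kf_far hp0 hρ0 (half_pos hη0)
  refine ⟨min δ (2 * r1), lt_min hδ (by linarith), ?_⟩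
  intro r hr σ hσ hσr hEn z hz
  have hr0 : 0 < r := hr.1
  have hrδ : r < δ := lt_of_lt_of_le hr.2 (min_le_left _ _)
  have hr1' : r < 2 * r1 := lt_of_lt_of_le hr.2 (min_le_right _ _)
  have hrρ : r < ρ := lt_of_lt_of_le hrδ hδρ
  have : IsProbabilityMeasure σ := hσ.1
  have hBPσ : BP q σ := (hcls n q μ inferInstance).2.1 hBPμ σ hσ
  have hBSσ : BS σ := hσ.2.2
  have hintx : ∀ x : E n, Integrable (fun y => kr p x y) σ :=
    (hint n p q hp0 hpq σ σ inferInstance inferInstance hBPσ hBSσ hBSσ).2.1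
  -- potential at the centre
  have hU : U p σ x0 ≤ V - 2 * η0 := by
    refine h1 (r / 2) ⟨by linarith, by linarith⟩ σ hσ hσr ?_ x0 ?_
    · have : C * 2 ^ q * (r / 2) ^ q = C * r ^ q := by
        rw [mul_assoc, ← Real.mul_rpow (by norm_num) (by positivity)]
        congr 2
        ring
      rw [this]
      exact hEn
    · rw [Metric.mem_closedBall, dist_self]
      have := hκ.1
      positivity
  -- masses of balls
  have hmass : ∀ t, r ≤ t → t ≤ ρ → (σ (Metric.closedBall x0 t)).toReal ≤ C' * t ^ q := by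
    intro t hrt htρ
    refine h3 t ⟨by linarith, by linarith⟩ σ hσ (hEn.trans ?_)
    have := Real.rpow_le_rpow hr0.le hrt hq0.le
    nlinarith
  -- decomposition of the domain
  set A : Set (E n) := Metric.ball x0 ρ \ Metric.ball x0 r with hA
  have hAm : MeasurableSet A := Metric.isOpen_ball.measurableSet.diff
    Metric.isOpen_ball.measurableSet
  have hsplit : (Metric.ball x0 r)ᶜ = (Metric.ball x0 ρ)ᶜ ∪ A := by
    ext y
    simp only [hA, Set.mem_compl_iff, Metric.mem_ball, Set.mem_union, Set.mem_sdiff, not_lt]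
    constructor
    · intro hy
      rcases lt_or_ge (dist y x0) ρ with h | h
      · exact Or.inr ⟨h, hy⟩
      · exact Or.inl h
    · rintro (h | h)
      · linarith
      · exact h.2
  have hdisj : Disjoint (Metric.ball x0 ρ)ᶜ A := by
    rw [Set.disjoint_left]
    intro y hy hyA
    exact hy hyA.1
  rw [hsplit, setIntegral_union hdisj hAm (hintx z).integrableOn (hintx z).integrableOn]
  have hzd : dist z x0 < 3 * r / 4 := hz
  -- far part
  have hfarpart : ∫ y in (Metric.ball x0 ρ)ᶜ, kr p z y ∂σ ≤ V - 2 * η0 + η0 / 2 := by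
    have h4 : ∫ y in (Metric.ball x0 ρ)ᶜ, kr p z y ∂σ ≤
        ∫ y in (Metric.ball x0 ρ)ᶜ, (kr p x0 y + η0 / 2) ∂σ := by
      refine setIntegral_mono_on (hintx z).integrableOn ?_
        Metric.isOpen_ball.measurableSet.compl ?_
      · exact ((hintx x0).add (integrable_const _)).integrableOn
      · intro y hy
        rw [kr_eq, kr_eq]
        have hy' : ρ ≤ dist x0 y := by
          rw [dist_comm]
          simpa using hy
        have hd : dist x0 y - r ≤ dist z y := by
          have := dist_triangle x0 z y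
          have h5 : dist x0 z < 3 * r / 4 := by rw [dist_comm]; exact hzd
          linarith
        refine (kf_anti hp0 (by linarith) hd).trans ?_
        exact hfar r ⟨hr0, hrδ⟩ _ hy'
    have h5 : ∫ y in (Metric.ball x0 ρ)ᶜ, (kr p x0 y + η0 / 2) ∂σ
        = ∫ y in (Metric.ball x0 ρ)ᶜ, kr p x0 y ∂σ + σ.real (Metric.ball x0 ρ)ᶜ * (η0 / 2) := by
      rw [integral_add (hintx x0).integrableOn (integrable_const _), setIntegral_const,
        smul_eq_mul]
    have h6 : σ.real (Metric.ball x0 ρ)ᶜ ≤ 1 := by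
      exact measureReal_le_one
    have h7 : ∫ y in (Metric.ball x0 ρ)ᶜ, kr p x0 y ∂σ ≤ U p σ x0 := by
      have h8 := integral_add_compl (μ := σ) (f := fun y => kr p x0 y)
        (Metric.isOpen_ball (x := x0) (ε := ρ)).measurableSet (hintx x0)
      have h9 : 0 ≤ ∫ y in Metric.ball x0 ρ, kr p x0 y ∂σ := by
        refine setIntegral_nonneg Metric.isOpen_ball.measurableSet ?_
        intro y hy
        rw [kr_eq]
        refine kf_nonneg dist_nonneg ?_
        have : dist x0 y < ρ := by rw [dist_comm]; exact hy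
        linarith
      unfold U
      linarith
    have h10 : σ.real (Metric.ball x0 ρ)ᶜ * (η0 / 2) ≤ η0 / 2 := by
      have : 0 ≤ σ.real (Metric.ball x0 ρ)ᶜ := measureReal_nonneg
      nlinarith
    linarith
  -- near part
  have hnear : ∫ y in A, kr p z y ∂σ ≤ η0 / 2 := by
    obtain ⟨K, hKr, hKd⟩ := dyad hs0 hr0 hρ0
    set c : ℕ → ℝ := fun k => (1 + 1 / s) * 4 ^ s * (2 ^ s * (ρ * (1 / 2) ^ k) ^ (-s)) with hc
    have hc0 : ∀ k, 0 ≤ c k := fun k => by rw [hc]; positivity
    set g : E n → ℝ := fun y => ∑ k ∈ Finset.range K,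
      (Metric.ball x0 (ρ * (1 / 2) ^ k)).indicator (fun _ => c k) y with hg
    have hgint : Integrable g σ := by
      rw [hg]
      refine integrable_finsetSum _ fun k _ => ?_
      exact (integrable_const _).indicator Metric.isOpen_ball.measurableSet
    have h4 : ∫ y in A, kr p z y ∂σ ≤ ∫ y in A, g y ∂σ := by
      refine setIntegral_mono_on (hintx z).integrableOn hgint.integrableOn hAm ?_
      intro y hy
      have hyρ : dist x0 y < ρ := by rw [dist_comm]; exact hy.1
      have hyr : r ≤ dist x0 y := by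
        have := hy.2
        rw [dist_comm]
        simpa using this
      set d := dist x0 y with hd
      have hd0 : 0 < d := lt_of_lt_of_le hr0 hyr
      have hzy : d / 4 ≤ dist z y := by
        have := dist_triangle x0 z y
        have h5 : dist x0 z < 3 * r / 4 := by rw [dist_comm]; exact hzd
        linarith
      rw [kr_eq]
      refine (kf_anti hp0 (by positivity) hzy).trans ?_
      refine (kf_le hp0 hps hs0 (by positivity) (by linarith)).trans ?_
      have h5 : (d / 4) ^ (-s) = 4 ^ s * d ^ (-s) := by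
        rw [Real.div_rpow hd0.le (by norm_num), Real.rpow_neg (show (0 : ℝ) ≤ 4 by norm_num),
          div_inv_eq_mul, mul_comm]
      rw [h5]
      have h6 := hKd d hyr hyρ
      have h7 : g y = (1 + 1 / s) * 4 ^ s * ∑ k ∈ Finset.range K,
          (if d < ρ * (1 / 2) ^ k then 2 ^ s * (ρ * (1 / 2) ^ k) ^ (-s) else 0) := by
        rw [hg, Finset.mul_sum]
        refine Finset.sum_congr rfl fun k _ => ?_
        by_cases hdk : d < ρ * (1 / 2) ^ k
        · have hmem : y ∈ Metric.ball x0 (ρ * (1 / 2) ^ k) := by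
            rw [Metric.mem_ball, dist_comm]; exact hdk
          rw [if_pos hdk, Set.indicator_of_mem hmem]
        · have hmem : y ∉ Metric.ball x0 (ρ * (1 / 2) ^ k) := by
            rw [Metric.mem_ball, dist_comm]; exact hdk
          rw [if_neg hdk, Set.indicator_of_notMem hmem, mul_zero]
      rw [h7, ← mul_assoc]
      exact mul_le_mul_of_nonneg_left h6 (by positivity)
    have h5 : ∫ y in A, g y ∂σ ≤ ∫ y, g y ∂σ := by
      refine setIntegral_le_integral hgint (Filter.Eventually.of_forall fun y => ?_)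
      rw [hg]
      refine Finset.sum_nonneg fun k _ => ?_
      exact Set.indicator_nonneg (fun _ _ => hc0 k) y
    have h6 : ∫ y, g y ∂σ = ∑ k ∈ Finset.range K,
        σ.real (Metric.ball x0 (ρ * (1 / 2) ^ k)) * c k := by
      rw [hg, integral_finsetSum]
      · refine Finset.sum_congr rfl fun k _ => ?_
        rw [integral_indicator Metric.isOpen_ball.measurableSet, setIntegral_const, smul_eq_mul]
      · intro k _
        exact (integrable_const _).indicator Metric.isOpen_ball.measurableSet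
    have h7 : ∀ k ∈ Finset.range K, σ.real (Metric.ball x0 (ρ * (1 / 2) ^ k)) * c k ≤
        (1 + 1 / s) * 4 ^ s * (2 ^ s * C') * ρ ^ (q - s) * x ^ k := by
      intro k hk
      have hk1 : r < ρ * (1 / 2) ^ k := hKr k (Finset.mem_range.mp hk)
      have hk2 : ρ * (1 / 2) ^ k ≤ ρ := by
        have : (1 / 2 : ℝ) ^ k ≤ 1 := pow_le_one₀ (by norm_num) (by norm_num)
        nlinarith
      have hk0 : 0 < ρ * (1 / 2) ^ k := by positivity
      have h8 : σ.real (Metric.ball x0 (ρ * (1 / 2) ^ k)) ≤ C' * (ρ * (1 / 2) ^ k) ^ q := by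
        refine le_trans ?_ (hmass _ hk1.le hk2)
        exact measureReal_mono Metric.ball_subset_closedBall
      have h9 : (ρ * (1 / 2) ^ k) ^ q * (ρ * (1 / 2) ^ k) ^ (-s) = ρ ^ (q - s) * x ^ k := by
        rw [← Real.rpow_add hk0, ← sub_eq_add_neg, Real.mul_rpow hρ0.le (by positivity)]
        congr 1
        rw [hx, ← Real.rpow_natCast, ← Real.rpow_natCast, ← Real.rpow_mul (by norm_num),
          ← Real.rpow_mul (by norm_num), mul_comm]
      calc σ.real (Metric.ball x0 (ρ * (1 / 2) ^ k)) * c k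
          ≤ C' * (ρ * (1 / 2) ^ k) ^ q * c k := mul_le_mul_of_nonneg_right h8 (hc0 k)
        _ = (1 + 1 / s) * 4 ^ s * (2 ^ s * C') *
            ((ρ * (1 / 2) ^ k) ^ q * (ρ * (1 / 2) ^ k) ^ (-s)) := by rw [hc]; ring
        _ = _ := by rw [h9]; ring
    have h8 : ∑ k ∈ Finset.range K, σ.real (Metric.ball x0 (ρ * (1 / 2) ^ k)) * c k ≤
        (1 + 1 / s) * 4 ^ s * (2 ^ s * C') * ρ ^ (q - s) * (1 - x)⁻¹ := by
      refine (Finset.sum_le_sum h7).trans ?_
      rw [← Finset.mul_sum]
      refine mul_le_mul_of_nonneg_left ?_ (by positivity)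
      rw [← tsum_geometric_of_lt_one hx0.le hx1]
      exact (summable_geometric_of_lt_one hx0.le hx1).sum_le_tsum _ (fun _ _ => by positivity)
    have h9 : (1 + 1 / s) * 4 ^ s * (2 ^ s * C') * ρ ^ (q - s) * (1 - x)⁻¹
        = K0 * ρ ^ (q - s) := by rw [hK0]; ring
    linarith
  linarith

end Pool.Agent.R771.RC
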